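import Pool.Agent.Helper47_BS.Stmts

/-! # Module CLOSED: the set of valid codes is closed -/

set_option autoImplicit false

namespace Pool.Agent.BS.H72

open Function Filter Topology

/-! ### ultrafilters -/

section ultra

variable {ι : Type} (U : Ultrafilter ι)

theorem not_ev {p : ι → Prop} : (¬ ∀ᶠ i in (U : Filter ι), p i) ↔ ∀ᶠ i in (U : Filter ι), ¬ p i :=
  Ultrafilter.eventually_not.symm

theorem ev_of_const {p : Prop} (h : ∀ᶠ _i in (U : Filter ι), p) : p := by
  obtain ⟨_, h⟩ := h.exists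
  exact h

theorem pig {α : Type} (s : Finset α) (P : α → ι → Prop)
    (h : ∀ᶠ i in (U : Filter ι), ∃ a ∈ s, P a i) : ∃ a ∈ s, ∀ᶠ i in (U : Filter ι), P a i := by
  by_contra hcon
  push Not at hcon
  have h1 : ∀ a ∈ s, ∀ᶠ i in (U : Filter ι), ¬ P a i := fun a ha =>
    (not_ev U).1 (by simpa using hcon a ha)
  have h2 : ∀ᶠ i in (U : Filter ι), ∀ a ∈ s, ¬ P a i := (Finset.eventually_all s).2 h1
  obtain ⟨i, hi1, hi2⟩ := (h.and h2).exists
  obtain ⟨a, ha, hP⟩ := hi1
  exact hi2 a ha hP

end ultra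

theorem cyc_lt {D V : Type} (T : TMap D V) {Δ : ℕ} (hdeg : T.Deg Δ) {d d' : D}
    (h : T.lf d = T.lf d') : ∃ n < Δ, (T.lam ^ n) d = d' := by
  have hmem : ∀ n : ℕ, (T.lam ^ n) d ∈ T.star (T.lf d) := by
    intro n
    rw [T.mem_star]
    induction n with
    | zero => rfl
    | succ n ih => rw [pow_succ', Equiv.Perm.mul_apply, T.lf_lam]; exact ih
  -- a period
  obtain ⟨p, hp0, hpΔ, hp⟩ : ∃ p, 0 < p ∧ p ≤ Δ ∧ (T.lam ^ p) d = d := by
    have hni : ¬ Set.InjOn (fun n : ℕ => (T.lam ^ n) d) (Finset.range (Δ + 1)) := by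
      intro hinj
      have h1 := Finset.card_le_card_of_injOn (s := Finset.range (Δ + 1))
        (t := T.star (T.lf d)) (fun n : ℕ => (T.lam ^ n) d) (fun n _ => hmem n) hinj
      rw [Finset.card_range] at h1
      have := hdeg (T.lf d)
      omega
    unfold Set.InjOn at hni
    push Not at hni
    obtain ⟨i, hi, j, hj, he, hne⟩ := hni
    rw [Finset.coe_range, Set.mem_Iio] at hi hj
    have key : ∀ i j : ℕ, i < j → j < Δ + 1 → (T.lam ^ i) d = (T.lam ^ j) d →
        ∃ p, 0 < p ∧ p ≤ Δ ∧ (T.lam ^ p) d = d := by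
      intro i j hij hj he
      refine ⟨j - i, by omega, by omega, ?_⟩
      have e1 : T.lam ^ j = T.lam ^ i * T.lam ^ (j - i) := by
        rw [← pow_add]; congr 1; omega
      rw [e1, Equiv.Perm.mul_apply] at he
      exact ((T.lam ^ i).injective he).symm
    rcases lt_or_gt_of_ne hne with h1 | h1
    · exact key i j h1 hj he
    · exact key j i h1 hi he.symm
  obtain ⟨n, hn⟩ := T.cyc d d' h
  refine ⟨n % p, (Nat.mod_lt n hp0).trans_le hpΔ, ?_⟩
  have hmul : ∀ q : ℕ, (T.lam ^ (p * q)) d = d := by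
    intro q
    induction q with
    | zero => simp
    | succ q ih => rw [Nat.mul_succ, pow_add, Equiv.Perm.mul_apply, hp, ih]
  rw [← hn]
  conv_rhs => rw [← Nat.mod_add_div n p, pow_add, Equiv.Perm.mul_apply, hmul]

/-! ### the limit map -/

section limit

variable {ι : Type} (U : Ultrafilter ι) {D V : ι → Type} (T : ∀ i, TMap (D i) (V i))
  (r : ∀ i, D i)

/-- equality of darts -/
def sD : Setoid Gam where
  r g h := ∀ᶠ i in (U : Filter ι), (T i).act g (r i) = (T i).act h (r i)
  iseqv := ⟨fun _ => Eventually.of_forall fun _ => rfl, fun h => h.mono fun _ h => h.symm,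
    fun h h' => (h.and h').mono fun _ h => h.1.trans h.2⟩

/-- equality of vertices -/
def sV : Setoid Gam where
  r g h := ∀ᶠ i in (U : Filter ι), (T i).lf ((T i).act g (r i)) = (T i).lf ((T i).act h (r i))
  iseqv := ⟨fun _ => Eventually.of_forall fun _ => rfl, fun h => h.mono fun _ h => h.symm,
    fun h h' => (h.and h').mono fun _ h => h.1.trans h.2⟩

/-- darts of the limit -/
def DD : Type := Quotient (sD U T r)
/-- vertices of the limit -/
def VV : Type := Quotient (sV U T r)

/-- class of a word -/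
def mkD (g : Gam) : DD U T r := Quotient.mk (sD U T r) g
/-- class of a word -/
def mkV (g : Gam) : VV U T r := Quotient.mk (sV U T r) g

variable {U T r}

theorem mkD_eq {g h : Gam} : mkD U T r g = mkD U T r h ↔
    ∀ᶠ i in (U : Filter ι), (T i).act g (r i) = (T i).act h (r i) :=
  Quotient.eq (r := sD U T r)

theorem mkV_eq {g h : Gam} : mkV U T r g = mkV U T r h ↔
    ∀ᶠ i in (U : Filter ι), (T i).lf ((T i).act g (r i)) = (T i).lf ((T i).act h (r i)) :=
  Quotient.eq (r := sV U T r)

theorem mkD_ne {g h : Gam} : mkD U T r g ≠ mkD U T r h ↔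
    ∀ᶠ i in (U : Filter ι), (T i).act g (r i) ≠ (T i).act h (r i) := by
  rw [Ne, mkD_eq]
  exact not_ev U

theorem mkV_ne {g h : Gam} : mkV U T r g ≠ mkV U T r h ↔
    ∀ᶠ i in (U : Filter ι), (T i).lf ((T i).act g (r i)) ≠ (T i).lf ((T i).act h (r i)) := by
  rw [Ne, mkV_eq]
  exact not_ev U

variable (U T r)

/-- left multiplication -/
def lm (g : Gam) : DD U T r → DD U T r :=
  Quotient.map (sa := sD U T r) (sb := sD U T r) (fun h => g * h) (by
    intro a b hab
    refine Eventually.mono hab fun i hi => ?_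
    rw [(T i).act_mul_apply, (T i).act_mul_apply]
    exact congrArg _ hi)

variable {U T r}

theorem lm_mk (g h : Gam) : lm U T r g (mkD U T r h) = mkD U T r (g * h) := rfl

theorem DD_ex (d : DD U T r) : ∃ g, mkD U T r g = d := Quotient.exists_rep d

theorem VV_ex (v : VV U T r) : ∃ g, mkV U T r g = v := Quotient.exists_rep v

variable (U T r)

/-- left multiplication as a homomorphism -/
def lmH : Gam →* Equiv.Perm (DD U T r) where
  toFun g :=
    { toFun := lm U T r g
      invFun := lm U T r g⁻¹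
      left_inv := fun d => by
        obtain ⟨h, rfl⟩ := DD_ex d
        rw [lm_mk, lm_mk, inv_mul_cancel_left]
      right_inv := fun d => by
        obtain ⟨h, rfl⟩ := DD_ex d
        rw [lm_mk, lm_mk, mul_inv_cancel_left] }
  map_one' := by
    ext d
    obtain ⟨h, rfl⟩ := DD_ex d
    show lm U T r 1 (mkD U T r h) = mkD U T r h
    rw [lm_mk, one_mul]
  map_mul' g g' := by
    ext d
    obtain ⟨h, rfl⟩ := DD_ex d
    show lm U T r (g * g') (mkD U T r h) = lm U T r g (lm U T r g' (mkD U T r h))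
    rw [lm_mk, lm_mk, lm_mk, mul_assoc]

theorem lmH_mk (g h : Gam) : lmH U T r g (mkD U T r h) = mkD U T r (g * h) := rfl

/-- left vertex -/
def lfD : DD U T r → VV U T r :=
  Quotient.map (sa := sD U T r) (sb := sV U T r) id (by
    intro a b hab
    refine Eventually.mono hab fun i hi => ?_
    exact congrArg _ hi)

theorem lfD_mk (g : Gam) : lfD U T r (mkD U T r g) = mkV U T r g := rfl

theorem act_pow_L (i : ι) (n : ℕ) (g : Gam) : (T i).act (L ^ n * g) (r i)
    = ((T i).lam ^ n) ((T i).act g (r i)) := by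
  rw [(T i).act_mul_apply, map_pow, (T i).act_L]

theorem cycD {Δ : ℕ} (hdeg : ∀ i, (T i).Deg Δ) {g h : Gam} (e : mkV U T r g = mkV U T r h) :
    ∃ n < Δ, mkD U T r (L ^ n * g) = mkD U T r h := by
  rw [mkV_eq] at e
  have h1 : ∀ᶠ i in (U : Filter ι), ∃ n ∈ Finset.range Δ,
      (T i).act (L ^ n * g) (r i) = (T i).act h (r i) := by
    refine e.mono fun i hi => ?_
    obtain ⟨n, hn, e1⟩ := cyc_lt (T i) (hdeg i) hi
    exact ⟨n, Finset.mem_range.2 hn, by rw [act_pow_L, e1]⟩
  obtain ⟨n, hn, h2⟩ := pig U (Finset.range Δ) _ h1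
  exact ⟨n, Finset.mem_range.1 hn, mkD_eq.2 h2⟩

theorem lmH_pow (n : ℕ) (g : Gam) : ((lmH U T r L) ^ n) (mkD U T r g) = mkD U T r (L ^ n * g) := by
  rw [← map_pow, lmH_mk]

theorem exists_lf (v : VV U T r) : ∃ d : DD U T r, lfD U T r d = v :=
  by
    obtain ⟨g, rfl⟩ := VV_ex v
    exact ⟨mkD U T r g, rfl⟩

open Classical in
/-- the star of a vertex -/
noncomputable def starD (Δ : ℕ) (v : VV U T r) : Finset (DD U T r) :=
  (Finset.range Δ).image fun n => ((lmH U T r L) ^ n) (Classical.choose (exists_lf U T r v))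

theorem lfD_pow (n : ℕ) (d : DD U T r) : lfD U T r (((lmH U T r L) ^ n) d) = lfD U T r d := by
  obtain ⟨g, rfl⟩ := DD_ex d
  rw [lmH_pow, lfD_mk, lfD_mk, mkV_eq]
  refine Eventually.of_forall fun i => ?_
  rw [act_pow_L]
  induction n with
  | zero => rfl
  | succ n ih => rw [pow_succ', Equiv.Perm.mul_apply, (T i).lf_lam]; exact ih

theorem mem_starD {Δ : ℕ} (hdeg : ∀ i, (T i).Deg Δ) (v : VV U T r) (d : DD U T r) :
    d ∈ starD U T r Δ v ↔ lfD U T r d = v := by
  classical
  have hc := Classical.choose_spec (exists_lf U T r v)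
  set e := Classical.choose (exists_lf U T r v) with he
  unfold starD
  rw [Finset.mem_image]
  constructor
  · rintro ⟨n, -, rfl⟩
    rw [lfD_pow]
    exact hc
  · intro h
    rw [← hc] at h
    obtain ⟨g, rfl⟩ := DD_ex d
    obtain ⟨g', hg'⟩ := DD_ex e
    rw [← hg'] at h
    rw [← he, ← hg']
    obtain ⟨n, hn, h1⟩ := cycD U T r hdeg h.symm
    exact ⟨n, Finset.mem_range.2 hn, by rw [lmH_pow]; exact h1⟩

/-- the limit map -/
noncomputable def TL (Δ : ℕ) (hdeg : ∀ i, (T i).Deg Δ) : TMap (DD U T r) (VV U T r) where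
  lam := lmH U T r L
  al := lmH U T r A
  lf := lfD U T r
  star := starD U T r Δ
  mem_star := mem_starD U T r hdeg
  star_ne v := by
    obtain ⟨d, hd⟩ := exists_lf U T r v
    exact ⟨d, (mem_starD U T r hdeg v d).2 hd⟩
  lf_lam d := by
    have := lfD_pow U T r 1 d
    rwa [pow_one] at this
  cyc d d' := by
    obtain ⟨g, rfl⟩ := DD_ex d
    obtain ⟨g', rfl⟩ := DD_ex d'
    intro h
    obtain ⟨n, -, h1⟩ := cycD U T r hdeg h
    exact ⟨n, by rw [lmH_pow]; exact h1⟩
  al_al d := by
    obtain ⟨g, rfl⟩ := DD_ex d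
    rw [lmH_mk, lmH_mk, mkD_eq]
    refine Eventually.of_forall fun i => ?_
    rw [(T i).act_A_mul, (T i).act_A_mul, (T i).al_al]
  tri d := by
    obtain ⟨g, rfl⟩ := DD_ex d
    rw [lmH_mk, lmH_mk, lmH_mk, lmH_mk, lmH_mk, lmH_mk, mkD_eq]
    refine Eventually.of_forall fun i => ?_
    rw [(T i).act_L_mul, (T i).act_A_mul, (T i).act_L_mul, (T i).act_A_mul, (T i).act_L_mul,
      (T i).act_A_mul, (T i).tri]
  no_loop d := by
    obtain ⟨g, rfl⟩ := DD_ex d
    rw [lmH_mk, lfD_mk, lfD_mk, mkV_ne]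
    refine Eventually.of_forall fun i => ?_
    rw [(T i).act_A_mul]
    exact (T i).no_loop _
  simple d d' := by
    obtain ⟨g, rfl⟩ := DD_ex d
    obtain ⟨g', rfl⟩ := DD_ex d'
    rw [lmH_mk, lmH_mk, lfD_mk, lfD_mk, lfD_mk, lfD_mk, mkV_eq, mkV_eq, mkD_eq]
    intro h1 h2
    refine (h1.and h2).mono fun i hi => ?_
    rw [(T i).act_A_mul, (T i).act_A_mul] at hi
    exact (T i).simple _ _ hi.1 hi.2
  conn d d' := by
    obtain ⟨g, rfl⟩ := DD_ex d
    obtain ⟨g', rfl⟩ := DD_ex d'
    refine ⟨g' * g⁻¹, ?_⟩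
    have e : FreeGroup.lift (fun b : Bool => if b then lmH U T r A else lmH U T r L)
        = lmH U T r := by
      refine FreeGroup.ext_hom _ _ ?_
      intro b
      cases b
      · simp only [FreeGroup.lift_apply_of]; rfl
      · simp only [FreeGroup.lift_apply_of]; rfl
    rw [e, lmH_mk, inv_mul_cancel_right]

variable {Δ : ℕ} (hdeg : ∀ i, (T i).Deg Δ)

theorem TL_act (g : Gam) : (TL U T r Δ hdeg).act g = lmH U T r g := by
  have e : (TL U T r Δ hdeg).act = lmH U T r := by
    refine FreeGroup.ext_hom _ _ ?_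
    intro b
    cases b
    · change (TL U T r Δ hdeg).act L = lmH U T r L
      rw [TMap.act_L]; rfl
    · change (TL U T r Δ hdeg).act A = lmH U T r A
      rw [TMap.act_A]; rfl
  rw [e]

theorem TL_deg : (TL U T r Δ hdeg).Deg Δ := by
  classical
  intro v
  show (starD U T r Δ v).card ≤ Δ
  unfold starD
  exact Finset.card_image_le.trans (by rw [Finset.card_range])

/-! ### representatives -/

/-- the dart of the map number `i` which represents a dart of the limit -/
noncomputable def rd (i : ι) (d : DD U T r) : D i := (T i).act (Quotient.out d) (r i)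

/-- the vertex of the map number `i` which represents a vertex of the limit -/
noncomputable def rv (i : ι) (v : VV U T r) : V i := (T i).lf ((T i).act (Quotient.out v) (r i))

theorem out_mkD (g : Gam) : mkD U T r (Quotient.out (mkD U T r g)) = mkD U T r g :=
  Quotient.out_eq _

theorem out_mkV (g : Gam) : mkV U T r (Quotient.out (mkV U T r g)) = mkV U T r g :=
  Quotient.out_eq _

theorem rd_mk (g : Gam) : ∀ᶠ i in (U : Filter ι), rd U T r i (mkD U T r g) = (T i).act g (r i) :=
  mkD_eq.1 (out_mkD U T r g)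

theorem rv_mk (g : Gam) : ∀ᶠ i in (U : Filter ι),
    rv U T r i (mkV U T r g) = (T i).lf ((T i).act g (r i)) :=
  mkV_eq.1 (out_mkV U T r g)

theorem rd_eq {d d' : DD U T r} : d = d' ↔ ∀ᶠ i in (U : Filter ι), rd U T r i d = rd U T r i d' := by
  constructor
  · rintro rfl; exact Eventually.of_forall fun _ => rfl
  · obtain ⟨g, rfl⟩ := DD_ex d
    obtain ⟨g', rfl⟩ := DD_ex d'
    intro h
    rw [mkD_eq]
    filter_upwards [h, rd_mk U T r g, rd_mk U T r g'] with i h1 h2 h3
    rw [← h2, ← h3, h1]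

theorem rv_eq {v v' : VV U T r} : v = v' ↔ ∀ᶠ i in (U : Filter ι), rv U T r i v = rv U T r i v' := by
  constructor
  · rintro rfl; exact Eventually.of_forall fun _ => rfl
  · obtain ⟨g, rfl⟩ := VV_ex v
    obtain ⟨g', rfl⟩ := VV_ex v'
    intro h
    rw [mkV_eq]
    filter_upwards [h, rv_mk U T r g, rv_mk U T r g'] with i h1 h2 h3
    rw [← h2, ← h3, h1]

theorem rd_iff (d d' : DD U T r) :
    ∀ᶠ i in (U : Filter ι), (d = d' ↔ rd U T r i d = rd U T r i d') := by
  by_cases h : d = d'
  · subst h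
    exact Eventually.of_forall fun _ => ⟨fun _ => rfl, fun _ => rfl⟩
  · have h1 : ∀ᶠ i in (U : Filter ι), rd U T r i d ≠ rd U T r i d' :=
      (not_ev U).1 (fun h' => h ((rd_eq U T r).2 h'))
    exact h1.mono fun i hi => ⟨fun h' => absurd h' h, fun h' => absurd h' hi⟩

theorem rv_iff (d d' : VV U T r) :
    ∀ᶠ i in (U : Filter ι), (d = d' ↔ rv U T r i d = rv U T r i d') := by
  by_cases h : d = d'
  · subst h
    exact Eventually.of_forall fun _ => ⟨fun _ => rfl, fun _ => rfl⟩
  · have h1 : ∀ᶠ i in (U : Filter ι), rv U T r i d ≠ rv U T r i d' :=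
      (not_ev U).1 (fun h' => h ((rv_eq U T r).2 h'))
    exact h1.mono fun i hi => ⟨fun h' => absurd h' h, fun h' => absurd h' hi⟩

theorem rd_lam (d : DD U T r) : ∀ᶠ i in (U : Filter ι),
    rd U T r i ((TL U T r Δ hdeg).lam d) = (T i).lam (rd U T r i d) := by
  obtain ⟨g, rfl⟩ := DD_ex d
  show ∀ᶠ i in (U : Filter ι), rd U T r i (mkD U T r (L * g)) = _
  filter_upwards [rd_mk U T r g, rd_mk U T r (L * g)] with i h1 h2
  rw [h1, h2, (T i).act_L_mul]

theorem rd_al (d : DD U T r) : ∀ᶠ i in (U : Filter ι),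
    rd U T r i ((TL U T r Δ hdeg).al d) = (T i).al (rd U T r i d) := by
  obtain ⟨g, rfl⟩ := DD_ex d
  show ∀ᶠ i in (U : Filter ι), rd U T r i (mkD U T r (A * g)) = _
  filter_upwards [rd_mk U T r g, rd_mk U T r (A * g)] with i h1 h2
  rw [h1, h2, (T i).act_A_mul]

theorem rd_lam_symm (d : DD U T r) : ∀ᶠ i in (U : Filter ι),
    rd U T r i ((TL U T r Δ hdeg).lam.symm d) = (T i).lam.symm (rd U T r i d) := by
  have h := rd_lam U T r hdeg ((TL U T r Δ hdeg).lam.symm d)
  rw [Equiv.apply_symm_apply] at h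
  filter_upwards [h] with i hi
  rw [hi, Equiv.symm_apply_apply]

theorem rd_rho (d : DD U T r) : ∀ᶠ i in (U : Filter ι),
    rd U T r i ((TL U T r Δ hdeg).rho d) = (T i).rho (rd U T r i d) := by
  rw [TMap.rho_apply]
  filter_upwards [rd_al U T r hdeg d, rd_lam_symm U T r hdeg ((TL U T r Δ hdeg).al d),
    rd_al U T r hdeg ((TL U T r Δ hdeg).lam.symm ((TL U T r Δ hdeg).al d))] with i h1 h2 h3
  rw [h3, h2, h1, (T i).rho_apply]

theorem rv_lf (d : DD U T r) : ∀ᶠ i in (U : Filter ι),
    rv U T r i ((TL U T r Δ hdeg).lf d) = (T i).lf (rd U T r i d) := by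
  obtain ⟨g, rfl⟩ := DD_ex d
  show ∀ᶠ i in (U : Filter ι), rv U T r i (mkV U T r g) = _
  filter_upwards [rd_mk U T r g, rv_mk U T r g] with i h1 h2
  rw [h1, h2]

theorem rv_rt (d : DD U T r) : ∀ᶠ i in (U : Filter ι),
    rv U T r i ((TL U T r Δ hdeg).rt d) = (T i).rt (rd U T r i d) := by
  unfold TMap.rt
  filter_upwards [rd_al U T r hdeg d, rv_lf U T r hdeg ((TL U T r Δ hdeg).al d)] with i h1 h2
  rw [h2, h1]

/-! ### the flow -/

variable {K : ℕ} {θ : ∀ i, D i → ℤ} (hθ : ∀ i, (T i).IsFlow K (θ i))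

include hθ in
theorem exists_th (d : DD U T r) : ∃ z : ℤ, ∀ᶠ i in (U : Filter ι), θ i (rd U T r i d) = z := by
  have h : ∀ᶠ i in (U : Filter ι), ∃ z ∈ Finset.Icc (-(K : ℤ)) K, θ i (rd U T r i d) = z := by
    refine Eventually.of_forall fun i => ?_
    have h1 := (hθ i).bdd (rd U T r i d)
    rw [abs_le] at h1
    exact ⟨_, Finset.mem_Icc.2 h1, rfl⟩
  obtain ⟨z, -, hz⟩ := pig U _ _ h
  exact ⟨z, hz⟩

/-- the limit flow -/
noncomputable def thL (d : DD U T r) : ℤ := Classical.choose (exists_th U T r hθ d)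

theorem thL_spec (d : DD U T r) : ∀ᶠ i in (U : Filter ι), θ i (rd U T r i d) = thL U T r hθ d :=
  Classical.choose_spec (exists_th U T r hθ d)

/-- the star of a vertex is eventually the image of the star of the limit -/
theorem star_ev (v : VV U T r) : ∀ᶠ i in (U : Filter ι),
    Set.InjOn (rd U T r i) ((TL U T r Δ hdeg).star v) ∧
    ∀ e : D i, e ∈ (T i).star (rv U T r i v) ↔
      ∃ d ∈ (TL U T r Δ hdeg).star v, rd U T r i d = e := by
  classical
  set T' := TL U T r Δ hdeg with hT'
  obtain ⟨d₀, hd₀⟩ := exists_lf U T r v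
  have h1 : ∀ᶠ i in (U : Filter ι), ∀ d ∈ T'.star v, ∀ d' ∈ T'.star v,
      (d = d' ↔ rd U T r i d = rd U T r i d') :=
    (Finset.eventually_all _).2 fun d _ => (Finset.eventually_all _).2 fun d' _ => rd_iff U T r d d'
  have h2 : ∀ᶠ i in (U : Filter ι), ∀ d ∈ T'.star v, rv U T r i (T'.lf d) = (T i).lf (rd U T r i d) :=
    (Finset.eventually_all _).2 fun d _ => rv_lf U T r hdeg d
  -- the powers of `lam` applied to `d₀`
  have h3 : ∀ᶠ i in (U : Filter ι), ∀ n ∈ Finset.range Δ,
      rd U T r i ((T'.lam ^ n) d₀) = ((T i).lam ^ n) (rd U T r i d₀) := by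
    refine (Finset.eventually_all _).2 fun n _ => ?_
    induction n with
    | zero => exact Eventually.of_forall fun _ => rfl
    | succ n ih =>
      rename_i hh
      have ih' := ih (by rw [Finset.mem_range] at hh ⊢; omega)
      filter_upwards [ih', rd_lam U T r hdeg ((T'.lam ^ n) d₀)] with i h4 h5
      rw [pow_succ', Equiv.Perm.mul_apply, h5, h4, pow_succ', Equiv.Perm.mul_apply]
  filter_upwards [h1, h2, h3, rv_lf U T r hdeg d₀] with i a1 a2 a3 a4
  refine ⟨fun d hd d' hd' he => (a1 d hd d' hd').2 he, fun e => ?_⟩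
  have hv : T'.lf d₀ = v := hd₀
  rw [(T i).mem_star]
  constructor
  · intro he
    rw [← hv, a4] at he
    obtain ⟨n, hn, h6⟩ := cyc_lt (T i) (hdeg i) he.symm
    refine ⟨(T'.lam ^ n) d₀, ?_, ?_⟩
    · rw [T'.mem_star]
      have := lfD_pow U T r n d₀
      exact this.trans hd₀
    · rw [a3 n (Finset.mem_range.2 hn), h6]
  · rintro ⟨d, hd, rfl⟩
    rw [← a2 d hd, (T'.mem_star v d).1 hd]

theorem TL_flow : (TL U T r Δ hdeg).IsFlow K (thL U T r hθ) := by
  classical
  refine ⟨fun d => ?_, fun d => ?_, fun v => ?_⟩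
  · apply ev_of_const U
    filter_upwards [thL_spec U T r hθ d, thL_spec U T r hθ ((TL U T r Δ hdeg).al d),
      rd_al U T r hdeg d] with i h1 h2 h3
    rw [← h1, ← h2, h3, (hθ i).anti]
  · apply ev_of_const U
    filter_upwards [thL_spec U T r hθ d] with i h1
    rw [← h1]
    exact (hθ i).bdd _
  · apply ev_of_const U
    have h1 : ∀ᶠ i in (U : Filter ι), ∀ d ∈ (TL U T r Δ hdeg).star v,
        θ i (rd U T r i d) = thL U T r hθ d :=
      (Finset.eventually_all _).2 fun d _ => thL_spec U T r hθ d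
    filter_upwards [star_ev U T r hdeg v, h1] with i h2 h3
    have h4 : (T i).star (rv U T r i v) = ((TL U T r Δ hdeg).star v).image (rd U T r i) := by
      ext e
      rw [Finset.mem_image]
      exact h2.2 e
    have h5 := (hθ i).div (rv U T r i v)
    rw [h4, Finset.sum_image h2.1] at h5
    rw [← Finset.sum_congr rfl h3]
    exact h5

/-! ### planarity -/

theorem support_bound (hF : FluxSetStmt) {D V : Type} (T : TMap D V) {K : ℕ} {θ : D → ℤ}
    (hθ : T.IsFlow K θ) {p : ℕ → D} {n : ℕ} {χ : V → ℤ} (hfin : (support χ).Finite)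
    (hχ : ∀ d, T.cnt p n d = χ (T.lf d) - χ (T.rt d)) : hfin.toFinset.card ≤ 2 * (K * n) := by
  classical
  set S1 : Finset V := hfin.toFinset.filter (fun v => 1 ≤ χ v) with hS1
  set S2 : Finset V := hfin.toFinset.filter (fun v => χ v ≤ -1) with hS2
  have m1 : ∀ v, v ∈ S1 ↔ 1 ≤ χ v := by
    intro v
    rw [hS1, Finset.mem_filter, Set.Finite.mem_toFinset, mem_support]
    constructor
    · exact fun h => h.2
    · exact fun h => ⟨by omega, h⟩
  have m2 : ∀ v, v ∈ S2 ↔ χ v ≤ -1 := by
    intro v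
    rw [hS2, Finset.mem_filter, Set.Finite.mem_toFinset, mem_support]
    constructor
    · exact fun h => h.2
    · exact fun h => ⟨by omega, h⟩
  have hsub : hfin.toFinset ⊆ S1 ∪ S2 := by
    intro v hv
    rw [Set.Finite.mem_toFinset, mem_support] at hv
    rw [Finset.mem_union, m1, m2]
    omega
  have hbd : ∀ S : Finset V, (T.bd S).card ≤ n → (S.card : ℤ) ≤ K * n := by
    intro S hS
    have h1 := hF D V T K θ S hθ
    have h2 : ∑ d ∈ T.bd S, θ d ≤ ∑ _d ∈ T.bd S, (K : ℤ) :=
      Finset.sum_le_sum fun d _ => (abs_le.1 (hθ.bdd d)).2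
    rw [Finset.sum_const, nsmul_eq_mul] at h2
    have h3 : ((T.bd S).card : ℤ) * K ≤ K * n := by
      rw [mul_comm]
      exact mul_le_mul_of_nonneg_left (by exact_mod_cast hS) (by positivity)
    linarith
  have c1 : (T.bd S1).card ≤ n := by
    have : T.bd S1 ⊆ (Finset.range n).image p := by
      intro d hd
      unfold TMap.bd at hd
      rw [Finset.mem_filter, Finset.mem_biUnion] at hd
      obtain ⟨⟨v, hv, hdv⟩, hd2⟩ := hd
      rw [T.mem_star] at hdv
      rw [← hdv, m1] at hv
      rw [m1] at hd2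
      by_contra hcon
      rw [Finset.mem_image] at hcon
      push Not at hcon
      have h1 : T.cnt p n d ≤ 0 := by
        unfold TMap.cnt
        refine Finset.sum_nonpos fun k hk => ?_
        rw [if_neg (hcon k hk)]
        split_ifs <;> simp
      rw [hχ] at h1
      omega
    exact (Finset.card_le_card this).trans (Finset.card_image_le.trans (by rw [Finset.card_range]))
  have c2 : (T.bd S2).card ≤ n := by
    have : T.bd S2 ⊆ (Finset.range n).image (fun k => T.al (p k)) := by
      intro d hd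
      unfold TMap.bd at hd
      rw [Finset.mem_filter, Finset.mem_biUnion] at hd
      obtain ⟨⟨v, hv, hdv⟩, hd2⟩ := hd
      rw [T.mem_star] at hdv
      rw [← hdv, m2] at hv
      rw [m2] at hd2
      by_contra hcon
      rw [Finset.mem_image] at hcon
      push Not at hcon
      have h1 : 0 ≤ T.cnt p n d := by
        unfold TMap.cnt
        refine Finset.sum_nonneg fun k hk => ?_
        have : p k ≠ T.al d := fun h => hcon k hk (by rw [h, T.al_al])
        rw [if_neg this]
        split_ifs <;> simp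
      rw [hχ] at h1
      omega
    exact (Finset.card_le_card this).trans (Finset.card_image_le.trans (by rw [Finset.card_range]))
  have b1 := hbd S1 c1
  have b2 := hbd S2 c2
  have b3 := Finset.card_le_card hsub
  have b4 := Finset.card_union_le S1 S2
  have b1' : S1.card ≤ K * n := by exact_mod_cast b1
  have b2' : S2.card ≤ K * n := by exact_mod_cast b2
  omega

theorem TL_planar (hF : FluxSetStmt) (hI : InfStmt) (hθ : ∀ i, (T i).IsFlow K (θ i))
    (hpl : ∀ i, (T i).Planar) : (TL U T r Δ hdeg).Planar := by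
  classical
  intro p n hturn hclosed
  set T' := TL U T r Δ hdeg with hT'
  -- the paths in the maps number `i`
  set q : ∀ i, ℕ → D i := fun i k => rd U T r i (p k) with hq
  have e1 : ∀ᶠ i in (U : Filter ι), (T i).IsTurn (q i) n ∧ q i n = q i 0 := by
    have h1 : ∀ᶠ i in (U : Filter ι), ∀ k ∈ Finset.range n,
        q i (k + 1) = (T i).lam (q i k) ∨ q i (k + 1) = (T i).rho (q i k) := by
      refine (Finset.eventually_all _).2 fun k hk => ?_
      rcases hturn k (Finset.mem_range.1 hk) with h | h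
      · filter_upwards [rd_lam U T r hdeg (p k)] with i hi
        left
        rw [hq]
        show rd U T r i (p (k + 1)) = _
        rw [h]
        exact hi
      · filter_upwards [rd_rho U T r hdeg (p k)] with i hi
        right
        rw [hq]
        show rd U T r i (p (k + 1)) = _
        rw [h]
        exact hi
    filter_upwards [h1] with i hi
    refine ⟨fun k hk => hi k (Finset.mem_range.2 hk), ?_⟩
    rw [hq]
    show rd U T r i (p n) = rd U T r i (p 0)
    rw [hclosed]
  have e2 : ∃ χ : ∀ i, V i → ℤ, ∀ᶠ i in (U : Filter ι), (support (χ i)).Finite ∧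
      ∀ d, (T i).cnt (q i) n d = χ i ((T i).lf d) - χ i ((T i).rt d) := by
    have h1 : ∀ i, ∃ χ : V i → ℤ, (T i).IsTurn (q i) n ∧ q i n = q i 0 →
        (support χ).Finite ∧ ∀ d, (T i).cnt (q i) n d = χ ((T i).lf d) - χ ((T i).rt d) := by
      intro i
      by_cases h : (T i).IsTurn (q i) n ∧ q i n = q i 0
      · obtain ⟨χ, hχ⟩ := hpl i (q i) n h.1 h.2
        exact ⟨χ, fun _ => hχ⟩
      · exact ⟨0, fun h' => absurd h' h⟩
    choose χ hχ using h1
    exact ⟨χ, e1.mono fun i hi => hχ i hi⟩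
  obtain ⟨χ, hχ⟩ := e2
  -- convergence of `cnt`
  have e3 : ∀ d, ∀ᶠ i in (U : Filter ι), (T i).cnt (q i) n (rd U T r i d) = T'.cnt p n d := by
    intro d
    have h1 : ∀ᶠ i in (U : Filter ι), ∀ k ∈ Finset.range n,
        (p k = d ↔ rd U T r i (p k) = rd U T r i d) ∧
        (p k = T'.al d ↔ rd U T r i (p k) = rd U T r i (T'.al d)) :=
      (Finset.eventually_all _).2 fun k _ => (rd_iff U T r (p k) d).and (rd_iff U T r (p k) _)
    filter_upwards [h1, rd_al U T r hdeg d] with i h2 h3
    unfold TMap.cnt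
    refine Finset.sum_congr rfl fun k hk => ?_
    have h4 := h2 k hk
    rw [h3] at h4
    simp only [hq]
    congr 1
    · exact if_congr h4.1.symm rfl rfl
    · exact if_congr h4.2.symm rfl rfl
  -- differences of the potentials converge
  set v₀ : VV U T r := mkV U T r 1 with hv₀
  have e4 : ∀ v : VV U T r, ∃ z : ℤ, ∀ᶠ i in (U : Filter ι),
      χ i (rv U T r i v) - χ i (rv U T r i v₀) = z := by
    have h1 : ∀ d : DD U T r, ∃ z : ℤ, ∀ᶠ i in (U : Filter ι),
        χ i (rv U T r i (T'.lf d)) - χ i (rv U T r i v₀) = z := by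
      intro d
      refine T'.dart_induction (p := fun d => ∃ z : ℤ, ∀ᶠ i in (U : Filter ι),
        χ i (rv U T r i (T'.lf d)) - χ i (rv U T r i v₀) = z) (mkD U T r 1) ?_ ?_ ?_ ?_ d
      · exact ⟨0, Eventually.of_forall fun i => sub_self _⟩
      · rintro e ⟨z, hz⟩
        exact ⟨z, by rw [T'.lf_lam]; exact hz⟩
      · rintro e ⟨z, hz⟩
        exact ⟨z, by rw [T'.lf_lam_symm]; exact hz⟩
      · rintro e ⟨z, hz⟩
        refine ⟨z - T'.cnt p n e, ?_⟩
        filter_upwards [hz, e3 e, hχ, rv_lf U T r hdeg e, rv_rt U T r hdeg e] with i a1 a2 a3 a4 a5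
        have a6 := a3.2 (rd U T r i e)
        rw [a2] at a6
        have a7 : rv U T r i (T'.lf (T'.al e)) = (T i).rt (rd U T r i e) := a5
        rw [a7]
        rw [a4] at a1
        omega
    intro v
    obtain ⟨d, rfl⟩ := exists_lf U T r v
    exact h1 d
  -- a vertex where the potentials vanish
  have hflow := TL_flow U T r hdeg hθ
  have hinf : Infinite (VV U T r) := hI _ _ T' K _ hflow ⟨v₀⟩
  set N : ℕ := 2 * (K * n) with hN
  have hcard : ∀ W : Finset (VV U T r), (∀ v ∈ W, ∀ᶠ i in (U : Filter ι),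
      χ i (rv U T r i v) ≠ 0) → W.card ≤ N := by
    intro W hW
    have h1 : ∀ᶠ i in (U : Filter ι), ∀ v ∈ W, χ i (rv U T r i v) ≠ 0 :=
      (Finset.eventually_all _).2 hW
    have h2 : ∀ᶠ i in (U : Filter ι), ∀ v ∈ W, ∀ v' ∈ W,
        (v = v' ↔ rv U T r i v = rv U T r i v') :=
      (Finset.eventually_all _).2 fun v _ => (Finset.eventually_all _).2 fun v' _ =>
        rv_iff U T r v v'
    apply ev_of_const U
    filter_upwards [h1, h2, hχ] with i a1 a2 a3
    have a4 := support_bound hF (T i) (hθ i) a3.1 a3.2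
    refine (Finset.card_le_card_of_injOn (rv U T r i) ?_ ?_).trans a4
    · intro v hv
      rw [Finset.mem_coe, Set.Finite.mem_toFinset, mem_support]
      exact a1 v hv
    · intro v hv v' hv' he
      exact (a2 v hv v' hv').2 he
  obtain ⟨v₁, hv₁⟩ : ∃ v₁ : VV U T r, ∀ᶠ i in (U : Filter ι), χ i (rv U T r i v₁) = 0 := by
    by_contra hcon
    push Not at hcon
    obtain ⟨W, hW⟩ := Infinite.exists_subset_card_eq (VV U T r) (N + 1)
    have h1 := hcard W fun v _ => (not_ev U).1 (by simpa using hcon v)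
    omega
  choose δ hδ using e4
  have e5 : ∀ v, ∀ᶠ i in (U : Filter ι), χ i (rv U T r i v) = δ v - δ v₁ := by
    intro v
    filter_upwards [hδ v, hδ v₁, hv₁] with i a1 a2 a3
    rw [a3] at a2
    omega
  refine ⟨fun v => δ v - δ v₁, ?_, ?_⟩
  · by_contra hinf'
    obtain ⟨W, hW, hWc⟩ := (show (support fun v => δ v - δ v₁).Infinite from hinf').exists_subset_card_eq
      (N + 1)
    have h1 := hcard W (by
      intro v hv
      have h2 : δ v - δ v₁ ≠ 0 := hW (Finset.mem_coe.2 hv)
      filter_upwards [e5 v] with i hi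
      rw [hi]
      exact h2)
    omega
  · intro d
    apply ev_of_const U
    filter_upwards [e5 (T'.lf d), e5 (T'.rt d), e3 d, hχ, rv_lf U T r hdeg d,
      rv_rt U T r hdeg d] with i a1 a2 a3 a4 a5 a6
    have a7 := a4.2 (rd U T r i d)
    rw [a3, ← a5, ← a6, a1, a2] at a7
    exact a7

/-! ### the environment -/

open Classical in
/-- the limit environment -/
noncomputable def EL (E : ∀ i, Env (D i) (V i)) : Env (DD U T r) (VV U T r) where
  c v := decide (∀ᶠ i in (U : Filter ι), (E i).c (rv U T r i v) = true)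
  P := {d | ∀ᶠ i in (U : Filter ι), rd U T r i d ∈ (E i).P}
  F := {d | ∀ᶠ i in (U : Filter ι), rd U T r i d ∈ (E i).F}
  B m := {v | ∀ᶠ i in (U : Filter ι), rv U T r i v ∈ (E i).B m}
  r := mkD U T r 1

theorem decide_ev {p : ι → Prop} {q : Prop} [Decidable q] {b : Bool}
    (hq : q ↔ ∀ᶠ i in (U : Filter ι), p i)
    (hb : ∀ᶠ i in (U : Filter ι), (b = true ↔ p i)) : decide q = b := by
  have h1 : q ↔ b = true := by
    rw [hq]
    constructor
    · intro h
      apply ev_of_const U
      filter_upwards [h, hb] with i a1 a2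
      exact a2.2 a1
    · intro h
      filter_upwards [hb] with i a2
      exact a2.1 h
  cases b
  · rw [decide_eq_false_iff_not, h1]
    simp
  · rw [decide_eq_true_iff, h1]

theorem enc_EL (E : ∀ i, Env (D i) (V i)) (hr : ∀ i, (E i).r = r i) (X : Cod)
    (hX : ∀ k g, ∀ᶠ i in (U : Filter ι), X k g = (T i).enc (θ i) (E i) k g) :
    (TL U T r Δ hdeg).enc (thL U T r hθ) (EL U T r E) = X := by
  classical
  have hact : ∀ g, (TL U T r Δ hdeg).act g (EL U T r E).r = mkD U T r g := by
    intro g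
    rw [TL_act]
    show mkD U T r (g * 1) = _
    rw [mul_one]
  funext k g
  cases k with
  | col =>
    show decide _ = _
    rw [hact]
    refine decide_ev U Iff.rfl ?_
    filter_upwards [hX .col g, rv_mk U T r g] with i a1 a2
    rw [a1]
    show (E i).c ((T i).lf ((T i).act g (E i).r)) = true ↔ (E i).c (rv U T r i (mkV U T r g)) = true
    rw [a2, hr]
  | past =>
    show decide _ = _
    rw [hact]
    refine decide_ev U Iff.rfl ?_
    filter_upwards [hX .past g, rd_mk U T r g] with i a1 a2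
    rw [a1]
    show decide ((T i).act g (E i).r ∈ (E i).P) = true ↔ rd U T r i (mkD U T r g) ∈ (E i).P
    rw [a2, hr, decide_eq_true_iff]
  | fut =>
    show decide _ = _
    rw [hact]
    refine decide_ev U Iff.rfl ?_
    filter_upwards [hX .fut g, rd_mk U T r g] with i a1 a2
    rw [a1]
    show decide ((T i).act g (E i).r ∈ (E i).F) = true ↔ rd U T r i (mkD U T r g) ∈ (E i).F
    rw [a2, hr, decide_eq_true_iff]
  | eq =>
    show decide _ = _
    rw [hact]
    refine decide_ev U (p := fun i => (T i).act g (r i) = r i) ?_ ?_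
    · show mkD U T r g = mkD U T r 1 ↔ _
      rw [mkD_eq]
      simp only [(T _).act_one_apply]
    · filter_upwards [hX .eq g] with i a1
      rw [a1]
      show decide ((T i).act g (E i).r = (E i).r) = true ↔ _
      rw [hr, decide_eq_true_iff]
  | beta m =>
    show decide _ = _
    rw [hact]
    refine decide_ev U Iff.rfl ?_
    filter_upwards [hX (.beta m) g, rv_mk U T r g] with i a1 a2
    rw [a1]
    show decide ((T i).lf ((T i).act g (E i).r) ∈ (E i).B m) = true
      ↔ rv U T r i (mkV U T r g) ∈ (E i).B m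
    rw [a2, hr, decide_eq_true_iff]
  | th z =>
    show decide _ = _
    rw [hact]
    refine decide_ev U (p := fun i => θ i ((T i).act g (r i)) = z) ?_ ?_
    · constructor
      · intro h
        filter_upwards [thL_spec U T r hθ (mkD U T r g), rd_mk U T r g] with i a1 a2
        rw [← a2, a1, h]
      · intro h
        apply ev_of_const U
        filter_upwards [thL_spec U T r hθ (mkD U T r g), rd_mk U T r g, h] with i a1 a2 a3
        rw [← a1, a2, a3]
    · filter_upwards [hX (.th z) g] with i a1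
      rw [a1]
      show decide (θ i ((T i).act g (E i).r) = z) = true ↔ _
      rw [hr, decide_eq_true_iff]

end limit

theorem closed (hF : FluxSetStmt) (hI : InfStmt) : ClosedStmt := by
  classical
  intro Δ K
  refine isClosed_of_closure_subset fun X hX => ?_
  -- the index set
  let ι : Type := {Y : Cod // Valid Δ K Y}
  have hne : (comap (Subtype.val : ι → Cod) (𝓝 X)).NeBot := mem_closure_iff_comap_neBot.1 hX
  let U : Ultrafilter ι := Ultrafilter.of (comap (Subtype.val : ι → Cod) (𝓝 X))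
  have hU : Tendsto (Subtype.val : ι → Cod) (U : Filter ι) (𝓝 X) :=
    tendsto_iff_comap.2 (Ultrafilter.of_le _)
  choose D V T θ E hrep using fun Y : ι => Y.2
  have hbit : ∀ k g, ∀ᶠ i in (U : Filter ι), X k g = (T i).enc (θ i) (E i) k g := by
    intro k g
    have h1 : Tendsto (fun Y : ι => Y.1 k g) (U : Filter ι) (𝓝 (X k g)) :=
      ((continuous_bit k g).tendsto X).comp hU
    rw [nhds_discrete, tendsto_pure] at h1
    filter_upwards [h1] with i hi
    rw [← (hrep i).eq, hi]
  have hdeg : ∀ i, (T i).Deg Δ := fun i => (hrep i).deg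
  have hθ : ∀ i, (T i).IsFlow K (θ i) := fun i => (hrep i).flow
  refine ⟨DD U T (fun i => (E i).r), VV U T (fun i => (E i).r), TL U T _ Δ hdeg,
    thL U T _ hθ, EL U T _ E, ?_, ?_, ?_, ?_⟩
  · exact TL_planar U T _ hdeg hF hI hθ (fun i => (hrep i).planar)
  · exact TL_deg U T _ hdeg
  · exact TL_flow U T _ hdeg hθ
  · exact (enc_EL U T _ hdeg hθ E (fun _ => rfl) X hbit).symm

end Pool.Agent.BS.H72
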