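import Pool.Agent.Helper47_BS.Stmts

/-! # Module EXPM: exponential moments -/

set_option autoImplicit false

namespace Pool.Agent.BS.H72

theorem expm : ExpmStmt := by
  intro Ω _ n X φ
  induction n with
  | zero =>
    intro _ _ _ _ t
    simp
  | succ n ih =>
    intro h1 h2 h3 h4 t
    have ih' := ih (fun k hk => h1 k (by omega)) (fun k hk => h2 k (by omega))
      (fun k hk => h3 k (by omega)) (fun k hk => h4 k (by omega)) t
    set Sn : Ω → ℝ := fun ω => ∑ k ∈ Finset.range n, X k ω with hSn
    have hinv : Function.Involutive (φ n) := h1 n (by omega)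
    have hS : ∀ ω, Sn (φ n ω) = Sn ω := fun ω =>
      Finset.sum_congr rfl fun k hk => h3 n (by omega) k (Finset.mem_range.1 hk) ω
    have e1 : ∑ ω, Real.exp (t * ∑ k ∈ Finset.range (n + 1), X k ω) =
        ∑ ω, Real.exp (t * Sn ω) * Real.exp (t * X n ω) := by
      refine Finset.sum_congr rfl fun ω _ => ?_
      rw [Finset.sum_range_succ, mul_add, Real.exp_add]
    have e2 : ∑ ω, Real.exp (t * Sn ω) * Real.exp (t * X n ω) =
        ∑ ω, Real.exp (t * Sn ω) * Real.exp (-(t * X n ω)) := by
      rw [← Equiv.sum_comp hinv.toPerm]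
      refine Finset.sum_congr rfl fun ω _ => ?_
      show Real.exp (t * Sn (φ n ω)) * Real.exp (t * X n (φ n ω)) = _
      rw [hS, h2 n (by omega), mul_neg]
    have e3 : ∑ ω, Real.exp (t * Sn ω) * Real.exp (t * X n ω) =
        ∑ ω, Real.exp (t * Sn ω) * Real.cosh (t * X n ω) := by
      have : ∑ ω, Real.exp (t * Sn ω) * Real.cosh (t * X n ω) =
          (∑ ω, Real.exp (t * Sn ω) * Real.exp (t * X n ω)
            + ∑ ω, Real.exp (t * Sn ω) * Real.exp (-(t * X n ω))) / 2 := by
        rw [← Finset.sum_add_distrib, Finset.sum_div]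
        refine Finset.sum_congr rfl fun ω _ => ?_
        rw [Real.cosh_eq]
        ring
      rw [this, ← e2]
      ring
    rw [e1, e3]
    calc ∑ ω, Real.exp (t * Sn ω) * Real.cosh (t * X n ω)
        ≤ ∑ ω, Real.exp (t * Sn ω) * Real.cosh t := by
          refine Finset.sum_le_sum fun ω _ => ?_
          refine mul_le_mul_of_nonneg_left ?_ (Real.exp_pos _).le
          rw [Real.cosh_le_cosh, abs_mul]
          exact mul_le_of_le_one_right (abs_nonneg _) (h4 n (by omega) ω)
      _ = (∑ ω, Real.exp (t * Sn ω)) * Real.cosh t := by rw [Finset.sum_mul]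
      _ ≤ (Fintype.card Ω * Real.cosh t ^ n) * Real.cosh t :=
          mul_le_mul_of_nonneg_right ih' (Real.cosh_pos t).le
      _ = Fintype.card Ω * Real.cosh t ^ (n + 1) := by ring

end Pool.Agent.BS.H72
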