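import Pool.Agent.Helper47_BS.Stmts

/-! # Module FLIPFIN: the finite flip estimate -/

set_option autoImplicit false

namespace Pool.Agent.BS.H72

open Function

/-! ### balls -/

section ball

variable {D V : Type} (T : TMap D V)

theorem ball_mono_succ (d : D) (n : ℕ) : T.ball d n ⊆ T.ball d (n + 1) :=
  fun e he => ⟨e, he, Or.inl rfl⟩

theorem ball_mono (d : D) {n m : ℕ} (h : n ≤ m) : T.ball d n ⊆ T.ball d m := by
  induction h with
  | refl => exact subset_rfl
  | step _ ih => exact ih.trans (ball_mono_succ T d _)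

theorem ball_self (d : D) (n : ℕ) : d ∈ T.ball d n := ball_mono T d (Nat.zero_le n) rfl

theorem ball_trans {d e f : D} {n m : ℕ} (h1 : e ∈ T.ball d n) (h2 : f ∈ T.ball e m) :
    f ∈ T.ball d (n + m) := by
  induction m generalizing f with
  | zero =>
    have : f = e := h2
    rw [this]; exact h1
  | succ m ih =>
    obtain ⟨g, hg, h⟩ := h2
    exact ⟨g, ih hg, h⟩

theorem ball_lam (d : D) : T.lam d ∈ T.ball d 1 := ⟨d, rfl, Or.inr (Or.inl rfl)⟩
theorem ball_lam_symm (d : D) : T.lam.symm d ∈ T.ball d 1 := ⟨d, rfl, Or.inr (Or.inr (Or.inl rfl))⟩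
theorem ball_al (d : D) : T.al d ∈ T.ball d 1 := ⟨d, rfl, Or.inr (Or.inr (Or.inr rfl))⟩

theorem ball_rho (d : D) : T.rho d ∈ T.ball d 3 := by
  rw [T.rho_apply]
  exact ball_trans T (n := 2) (m := 1)
    (ball_trans T (n := 1) (m := 1) (ball_al T d) (ball_lam_symm T _)) (ball_al T _)

theorem ball_nx (c : V → Bool) (d : D) : T.nx c d ∈ T.ball d 3 := by
  unfold TMap.nx
  split_ifs
  · exact ball_rho T d
  · exact ball_mono T d (by norm_num) (ball_lam T d)

theorem ball_iterate (c : V → Bool) (d : D) (k : ℕ) : (T.nx c)^[k] d ∈ T.ball d (3 * k) := by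
  induction k with
  | zero => exact ball_self T d _
  | succ k ih =>
    rw [Function.iterate_succ_apply', Nat.mul_succ]
    exact ball_trans T ih (ball_nx T c _)

theorem ball_finite (d : D) (n : ℕ) : (T.ball d n).Finite := by
  induction n with
  | zero => exact Set.finite_singleton d
  | succ n ih =>
    have : T.ball d (n + 1) ⊆ T.ball d n ∪ T.lam '' T.ball d n ∪ T.lam.symm '' T.ball d n
        ∪ T.al '' T.ball d n := by
      rintro e ⟨f, hf, rfl | rfl | rfl | rfl⟩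
      · exact Or.inl (Or.inl (Or.inl hf))
      · exact Or.inl (Or.inl (Or.inr ⟨f, hf, rfl⟩))
      · exact Or.inl (Or.inr ⟨f, hf, rfl⟩)
      · exact Or.inr ⟨f, hf, rfl⟩
    exact (((ih.union (ih.image _)).union (ih.image _)).union (ih.image _)).subset this

end ball

theorem exists_radius (g : Gam) : ∃ r : ℕ, ∀ (D V : Type) (T : TMap D V) (d : D),
    T.act g d ∈ T.ball d r := by
  induction g using FreeGroup.induction_on with
  | C1 => exact ⟨0, fun D V T d => by rw [T.act_one_apply]; rfl⟩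
  | of b =>
    refine ⟨1, fun D V T d => ?_⟩
    cases b
    · change T.act L d ∈ _
      rw [T.act_L]; exact ball_lam T d
    · change T.act A d ∈ _
      rw [T.act_A]; exact ball_al T d
  | inv_of b _ =>
    refine ⟨1, fun D V T d => ?_⟩
    cases b
    · change T.act L⁻¹ d ∈ _
      rw [map_inv, T.act_L]; exact ball_lam_symm T d
    · change T.act A⁻¹ d ∈ _
      rw [map_inv, T.act_A]
      change T.al.symm d ∈ _
      rw [T.al_symm]; exact ball_al T d
  | mul g h hg hh =>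
    obtain ⟨r1, h1⟩ := hg
    obtain ⟨r2, h2⟩ := hh
    refine ⟨r2 + r1, fun D V T d => ?_⟩
    rw [T.act_mul_apply]
    exact ball_trans T (h2 D V T d) (h1 D V T _)

theorem exists_radius' (S : Finset Gam) : ∃ r : ℕ, ∀ g ∈ S, ∀ (D V : Type) (T : TMap D V) (d : D),
    T.act g d ∈ T.ball d r := by
  classical
  choose r hr using exists_radius
  refine ⟨S.sup r, fun g hg D V T d => ?_⟩
  exact ball_mono T d (Finset.le_sup (f := r) hg) (hr g D V T d)

/-! ### greedy coloring -/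

theorem greedy {D : Type} (F : Finset D) (R : D → D → Prop) (hR : ∀ d e, R d e → R e d) (N : ℕ)
    (hN : ∀ d ∈ F, ∀ G : Finset D, G ⊆ F → (∀ e ∈ G, R d e) → G.card ≤ N) :
    ∃ κ : D → Fin (N + 1), ∀ d ∈ F, ∀ e ∈ F, d ≠ e → R d e → κ d ≠ κ e := by
  classical
  induction F using Finset.induction_on with
  | empty => exact ⟨fun _ => 0, by simp⟩
  | insert a F ha ih =>
    obtain ⟨κ, hκ⟩ := ih (fun d hd G hG h =>
      hN d (Finset.mem_insert_of_mem hd) G (hG.trans (Finset.subset_insert _ _)) h)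
    -- the colors used by the neighbours of `a`
    set G := F.filter (fun e => R a e) with hG
    have hGc : G.card ≤ N := hN a (Finset.mem_insert_self _ _) G
      ((Finset.filter_subset _ _).trans (Finset.subset_insert _ _))
      (fun e he => (Finset.mem_filter.1 he).2)
    have hne : ∃ x : Fin (N + 1), x ∉ G.image κ := by
      by_contra hcon
      push Not at hcon
      have h1 : (Finset.univ : Finset (Fin (N + 1))) ⊆ G.image κ := fun x _ => hcon x
      have h2 := Finset.card_le_card h1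
      rw [Finset.card_univ, Fintype.card_fin] at h2
      have h3 := Finset.card_image_le (s := G) (f := κ)
      omega
    obtain ⟨x, hx⟩ := hne
    have hxG : ∀ e ∈ F, R a e → x ≠ κ e := by
      intro e he hRe hc
      exact hx (Finset.mem_image.2 ⟨e, Finset.mem_filter.2 ⟨he, hRe⟩, hc.symm⟩)
    refine ⟨Function.update κ a x, ?_⟩
    intro d hd e he hde hRde
    rcases Finset.mem_insert.1 hd with h1 | h1 <;> rcases Finset.mem_insert.1 he with h2 | h2
    · exact absurd (h1.trans h2.symm) hde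
    · subst h1
      have hed : e ≠ d := hde.symm
      rw [Function.update_self, Function.update_of_ne hed]
      exact hxG e h2 hRde
    · subst h2
      rw [Function.update_self, Function.update_of_ne hde]
      exact (hxG d h1 (hR _ _ hRde)).symm
    · have hda : d ≠ a := fun h => ha (h ▸ h1)
      have hea : e ≠ a := fun h => ha (h ▸ h2)
      rw [Function.update_of_ne hda, Function.update_of_ne hea]
      exact hκ d h1 e h2 hde hRde

/-! ### exponential moments on a subset -/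

theorem jensen {Ω : Type} [Fintype Ω] [DecidableEq Ω] (A : Finset Ω) (hA : A.Nonempty)
    (Y : Ω → ℝ) (C : ℝ) (h : ∑ ω, Real.exp (Y ω) ≤ A.card * Real.exp C) :
    ∑ ω ∈ A, Y ω ≤ A.card * C := by
  have hc : (0 : ℝ) < A.card := by exact_mod_cast hA.card_pos
  set m : ℝ := (∑ ω ∈ A, Y ω) / A.card with hm
  have h1 : ∑ ω ∈ A, Real.exp (Y ω) ≤ ∑ ω, Real.exp (Y ω) :=
    Finset.sum_le_sum_of_subset_of_nonneg (Finset.subset_univ _)
      (fun _ _ _ => (Real.exp_pos _).le)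
  have h2 : (A.card : ℝ) * Real.exp m ≤ ∑ ω ∈ A, Real.exp (Y ω) := by
    have h3 : ∑ ω ∈ A, (Y ω - m + 1) * Real.exp m ≤ ∑ ω ∈ A, Real.exp (Y ω) := by
      refine Finset.sum_le_sum fun ω _ => ?_
      have h4 := Real.add_one_le_exp (Y ω - m)
      calc (Y ω - m + 1) * Real.exp m ≤ Real.exp (Y ω - m) * Real.exp m :=
            mul_le_mul_of_nonneg_right h4 (Real.exp_pos _).le
        _ = Real.exp (Y ω) := by rw [← Real.exp_add]; congr 1; ring
    have h5 : ∑ ω ∈ A, (Y ω - m + 1) * Real.exp m = A.card * Real.exp m := by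
      rw [← Finset.sum_mul, Finset.sum_add_distrib, Finset.sum_sub_distrib]
      simp only [Finset.sum_const, nsmul_eq_mul, mul_one]
      have : (A.card : ℝ) * m = ∑ ω ∈ A, Y ω := by rw [hm]; field_simp
      rw [this]
      ring
    linarith
  have h6 : (A.card : ℝ) * Real.exp m ≤ A.card * Real.exp C := h2.trans (h1.trans h)
  have h7 : Real.exp m ≤ Real.exp C := le_of_mul_le_mul_left h6 hc
  have h8 : m ≤ C := Real.exp_le_exp.1 h7
  have : (A.card : ℝ) * m = ∑ ω ∈ A, Y ω := by rw [hm]; field_simp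
  rw [← this]
  exact mul_le_mul_of_nonneg_left h8 hc.le

theorem class_bound_one {Ω : Type} [Fintype Ω] [DecidableEq Ω] (hE : ExpmStmt) (A : Finset Ω)
    (hA : A.Nonempty) (l : ℕ) (X : ℕ → Ω → ℝ) (φ : ℕ → Ω → Ω)
    (h1 : ∀ k < l, ∀ ω, φ k (φ k ω) = ω) (h2 : ∀ k < l, ∀ ω, X k (φ k ω) = - X k ω)
    (h3 : ∀ k < l, ∀ j < k, ∀ ω, X j (φ k ω) = X j ω) (h4 : ∀ k < l, ∀ ω, |X k ω| ≤ 1)
    {δ : ℝ} (hδ : 0 < δ) (hbig : Real.exp (-(δ ^ 2 * l)) * Fintype.card Ω ≤ A.card) :
    ∑ ω ∈ A, ∑ k ∈ Finset.range l, X k ω ≤ A.card * (3 / 2 * δ * l) := by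
  have e1 := hE Ω inferInstance l X φ h1 h2 h3 h4 δ
  have e2 : (Fintype.card Ω : ℝ) ≤ A.card * Real.exp (δ ^ 2 * l) := by
    have h := mul_le_mul_of_nonneg_right hbig (Real.exp_pos (δ ^ 2 * l)).le
    have h5 : Real.exp (-(δ ^ 2 * l)) * Fintype.card Ω * Real.exp (δ ^ 2 * l)
        = Fintype.card Ω * (Real.exp (-(δ ^ 2 * l)) * Real.exp (δ ^ 2 * l)) := by ring
    rw [h5, ← Real.exp_add, neg_add_cancel, Real.exp_zero, mul_one] at h
    exact h
  have e3 : Real.cosh δ ^ l ≤ Real.exp (δ ^ 2 / 2 * l) := by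
    have h := Real.cosh_le_exp_half_sq δ
    calc Real.cosh δ ^ l ≤ Real.exp (δ ^ 2 / 2) ^ l :=
          pow_le_pow_left₀ (Real.cosh_pos δ).le h l
      _ = Real.exp (δ ^ 2 / 2 * l) := by rw [← Real.exp_nat_mul]; congr 1; ring
  have e4 : ∑ ω, Real.exp (δ * ∑ k ∈ Finset.range l, X k ω) ≤
      A.card * Real.exp (3 / 2 * δ ^ 2 * l) := by
    calc _ ≤ _ := e1
      _ ≤ (A.card * Real.exp (δ ^ 2 * l)) * Real.exp (δ ^ 2 / 2 * l) :=
          mul_le_mul e2 e3 (pow_nonneg (Real.cosh_pos δ).le _) (by positivity)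
      _ = A.card * Real.exp (3 / 2 * δ ^ 2 * l) := by
          rw [mul_assoc, ← Real.exp_add]; congr 2; ring
  have e5 := jensen A hA _ _ e4
  rw [← Finset.mul_sum] at e5
  have e6 : δ * ∑ ω ∈ A, ∑ k ∈ Finset.range l, X k ω ≤ δ * (A.card * (3 / 2 * δ * l)) := by
    calc _ ≤ _ := e5
      _ = _ := by ring
  exact le_of_mul_le_mul_left e6 hδ

theorem class_bound {Ω : Type} [Fintype Ω] [DecidableEq Ω] (hE : ExpmStmt) (A : Finset Ω)
    (hA : A.Nonempty) (l : ℕ) (X : ℕ → Ω → ℝ) (φ : ℕ → Ω → Ω)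
    (h1 : ∀ k < l, ∀ ω, φ k (φ k ω) = ω) (h2 : ∀ k < l, ∀ ω, X k (φ k ω) = - X k ω)
    (h3 : ∀ k < l, ∀ j < k, ∀ ω, X j (φ k ω) = X j ω) (h4 : ∀ k < l, ∀ ω, |X k ω| ≤ 1)
    {δ : ℝ} (hδ : 0 < δ) (hbig : Real.exp (-(δ ^ 2 * l)) * Fintype.card Ω ≤ A.card) :
    |∑ ω ∈ A, ∑ k ∈ Finset.range l, X k ω| ≤ A.card * (3 / 2 * δ * l) := by
  have a1 := class_bound_one hE A hA l X φ h1 h2 h3 h4 hδ hbig
  have a2 := class_bound_one hE A hA l (fun k ω => -X k ω) φ h1
    (fun k hk ω => by rw [h2 k hk ω]) (fun k hk j hj ω => by rw [h3 k hk j hj ω])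
    (fun k hk ω => by rw [abs_neg]; exact h4 k hk ω) hδ hbig
  simp only [Finset.sum_neg_distrib] at a2
  rw [abs_le]
  exact ⟨by linarith, a1⟩

/-! ### the flips -/

section flip

variable {D V : Type} (T : TMap D V) (θ : D → ℤ) (S : Finset Gam) (s : D)

theorem mem_vP_smp {c : V → Bool} {B : ℕ → Set V} {l k : ℕ} {v : V} :
    v ∈ T.vP (T.smp c B s l k) ↔ ∃ j ≤ k, T.lf ((T.nx c)^[j] s) = v ∨ T.rt ((T.nx c)^[j] s) = v := by
  constructor
  · rintro ⟨e, ⟨j, hj, rfl⟩, h⟩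
    exact ⟨j, hj, h⟩
  · rintro ⟨j, hj, h⟩
    exact ⟨_, ⟨j, hj, rfl⟩, h⟩

theorem path_eq {c c' : V → Bool} {k : ℕ}
    (h : ∀ v ∈ T.vP (T.smp c (fun _ => ∅) s 0 k), c' v = c v) :
    ∀ j ≤ k, (T.nx c')^[j] s = (T.nx c)^[j] s := by
  intro j
  induction j with
  | zero => intro _; rfl
  | succ j ih =>
    intro hj
    have ih' := ih (by omega)
    rw [Function.iterate_succ_apply', Function.iterate_succ_apply', ih']
    set d := (T.nx c)^[j] s with hd
    have hn : (T.nx c)^[j + 1] s = T.nx c d := by rw [Function.iterate_succ_apply']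
    have hτ : T.tau d ∈ T.vP (T.smp c (fun _ => ∅) s 0 k) := by
      rw [mem_vP_smp]
      refine ⟨j + 1, hj, ?_⟩
      rw [hn]
      unfold TMap.nx
      split_ifs
      · left; exact T.lf_rho d
      · right; exact T.rt_lam d
    unfold TMap.nx
    rw [h _ hτ]

open Classical in
/-- the vertices flipped at time `k` -/
noncomputable def J (k : ℕ) (ω : Finset V) : Finset V :=
  (S.image fun g => T.lf (T.act g ((T.nx (colF ω))^[k] s))).filter
    fun v => v ∉ T.vP (T.smp (colF ω) (fun _ => ∅) s 0 k)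

open Classical in
/-- the flip at time `k` -/
noncomputable def fl (k : ℕ) (ω : Finset V) : Finset V := symmDiff ω (J T S s k ω)

open Classical in
theorem colF_symmDiff (ω G : Finset V) (v : V) :
    colF (symmDiff ω G) v = if v ∈ G then !(colF ω v) else colF ω v := by
  unfold colF
  by_cases h1 : v ∈ ω <;> by_cases h2 : v ∈ G <;> simp [Finset.mem_symmDiff, h1, h2]

theorem mem_J {k : ℕ} {ω : Finset V} {v : V} : v ∈ J T S s k ω ↔
    (∃ g ∈ S, T.lf (T.act g ((T.nx (colF ω))^[k] s)) = v) ∧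
      v ∉ T.vP (T.smp (colF ω) (fun _ => ∅) s 0 k) := by
  classical
  unfold J
  rw [Finset.mem_filter, Finset.mem_image]

theorem fl_col_vP (k : ℕ) (ω : Finset V) :
    ∀ v ∈ T.vP (T.smp (colF ω) (fun _ => ∅) s 0 k), colF (fl T S s k ω) v = colF ω v := by
  classical
  intro v hv
  unfold fl
  rw [colF_symmDiff, if_neg]
  intro h
  exact ((mem_J T S s).1 h).2 hv

theorem fl_path (k : ℕ) (ω : Finset V) : ∀ j ≤ k,
    (T.nx (colF (fl T S s k ω)))^[j] s = (T.nx (colF ω))^[j] s :=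
  path_eq T s (fl_col_vP T S s k ω)

theorem vP_congr {c c' : V → Bool} {k : ℕ}
    (h : ∀ j ≤ k, (T.nx c')^[j] s = (T.nx c)^[j] s) :
    T.vP (T.smp c' (fun _ => ∅) s 0 k) = T.vP (T.smp c (fun _ => ∅) s 0 k) := by
  ext v
  rw [mem_vP_smp, mem_vP_smp]
  constructor
  · rintro ⟨j, hj, h'⟩
    exact ⟨j, hj, by rwa [h j hj] at h'⟩
  · rintro ⟨j, hj, h'⟩
    exact ⟨j, hj, by rwa [h j hj]⟩

theorem J_fl (k : ℕ) (ω : Finset V) : J T S s k (fl T S s k ω) = J T S s k ω := by
  ext v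
  rw [mem_J, mem_J, fl_path T S s k ω k le_rfl, vP_congr T s (fl_path T S s k ω)]

theorem fl_fl (k : ℕ) (ω : Finset V) : fl T S s k (fl T S s k ω) = ω := by
  classical
  unfold fl
  have h := J_fl T S s k ω
  unfold fl at h
  rw [h]
  exact symmDiff_symmDiff_cancel_right _ _

/-- two codes agree, colors only on `Q` -/
def Agr (Q : Finset Gam) (X Y : Cod) : Prop :=
  (∀ g, X .past g = Y .past g ∧ X .eq g = Y .eq g ∧ ∀ z, X (.th z) g = Y (.th z) g) ∧
    ∀ g ∈ Q, X .col g = Y .col g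

theorem Agr.loc {Q : Finset Gam} {X Y : Cod} (h : Agr Q X Y) {f : Cod → ℝ} (hf : LocalP Q f) :
    f X = f Y :=
  hf X Y fun g hg => ⟨h.2 g hg, (h.1 g).1, (h.1 g).2.1, (h.1 g).2.2⟩

theorem Agr.flp {Q : Finset Gam} {X Y : Cod} (h : Agr Q X Y) (Δ : ℕ) (S : Finset Gam) :
    Agr Q (FlP Δ S X) (FlP Δ S Y) := by
  refine ⟨fun g => ⟨(h.1 g).1, (h.1 g).2.1, (h.1 g).2.2⟩, fun g hg => ?_⟩
  have e1 : ∀ g', sameV Δ X g' g = sameV Δ Y g' g := by
    intro g'
    unfold sameV
    congr 1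
    funext n
    exact (h.1 _).2.1
  have e2 : inVP Δ X g = inVP Δ Y g := by
    unfold inVP
    congr 1
    funext n
    rw [(h.1 _).1, (h.1 _).1]
  show (if (∃ g' ∈ S, sameV Δ X g' g = true) ∧ inVP Δ X g = false then !(X .col g)
    else X .col g) = if (∃ g' ∈ S, sameV Δ Y g' g = true) ∧ inVP Δ Y g = false then !(Y .col g)
    else Y .col g
  simp only [e1, e2, h.2 g hg]

theorem Agr.symm {Q : Finset Gam} {X Y : Cod} (h : Agr Q X Y) : Agr Q Y X :=
  ⟨fun g => ⟨(h.1 g).1.symm, (h.1 g).2.1.symm, fun z => ((h.1 g).2.2 z).symm⟩,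
    fun g hg => (h.2 g hg).symm⟩

theorem agr_smp {Q : Finset Gam} {c c' : V → Bool} {B B' : ℕ → Set V} {l k : ℕ}
    (h : ∀ j ≤ k, (T.nx c')^[j] s = (T.nx c)^[j] s)
    (hq : ∀ g ∈ Q, c' (T.lf (T.act g ((T.nx c)^[k] s))) = c (T.lf (T.act g ((T.nx c)^[k] s)))) :
    Agr Q (T.enc θ (T.smp c' B' s l k)) (T.enc θ (T.smp c B s l k)) := by
  have hr := h k le_rfl
  have hP : {d | ∃ j ≤ k, (T.nx c')^[j] s = d} = {d | ∃ j ≤ k, (T.nx c)^[j] s = d} := by
    ext d
    constructor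
    · rintro ⟨j, hj, h'⟩
      exact ⟨j, hj, by rwa [h j hj] at h'⟩
    · rintro ⟨j, hj, h'⟩
      exact ⟨j, hj, by rwa [h j hj]⟩
  refine ⟨fun g => ⟨?_, ?_, fun z => ?_⟩, fun g hg => ?_⟩
  · simp only [TMap.enc, TMap.smp]
    rw [decide_eq_decide, hr, hP]
  · simp only [TMap.enc, TMap.smp]
    rw [decide_eq_decide, hr]
  · simp only [TMap.enc, TMap.smp]
    rw [decide_eq_decide, hr]
  · simp only [TMap.enc, TMap.smp]
    rw [hr]
    exact hq g hg

theorem agr_fl (hC : CodeStmt) {Δ : ℕ} (hdeg : T.Deg Δ) (Q : Finset Gam) (k l : ℕ) (ω : Finset V)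
    (B B' : ℕ → Set V) :
    Agr Q (T.enc θ (T.smp (colF (fl T S s k ω)) B' s l k))
      (FlP Δ S (T.enc θ (T.smp (colF ω) B s l k))) := by
  classical
  have hc := (hC D V T θ (T.smp (colF ω) B s l k)).2.2.2.1 Δ S hdeg
  rw [hc]
  have hp := fl_path T S s k ω
  have hr := hp k le_rfl
  have hP : {d | ∃ j ≤ k, (T.nx (colF (fl T S s k ω)))^[j] s = d}
      = {d | ∃ j ≤ k, (T.nx (colF ω))^[j] s = d} := by
    ext d
    constructor
    · rintro ⟨j, hj, h'⟩
      exact ⟨j, hj, by rwa [hp j hj] at h'⟩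
    · rintro ⟨j, hj, h'⟩
      exact ⟨j, hj, by rwa [hp j hj]⟩
  refine ⟨fun g => ⟨?_, ?_, fun z => ?_⟩, fun g _ => ?_⟩
  · simp only [TMap.enc, TMap.smp, TMap.flipE]
    rw [decide_eq_decide, hr, hP]
  · simp only [TMap.enc, TMap.smp, TMap.flipE]
    rw [decide_eq_decide, hr]
  · simp only [TMap.enc, TMap.smp, TMap.flipE]
    rw [decide_eq_decide, hr]
  · simp only [TMap.enc, TMap.flipE]
    show colF (fl T S s k ω) (T.lf (T.act g ((T.nx (colF (fl T S s k ω)))^[k] s))) = _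
    rw [hr]
    unfold fl
    rw [colF_symmDiff]
    have hmem : T.lf (T.act g ((T.nx (colF ω))^[k] s)) ∈ J T S s k ω ↔
        (T.lf (T.act g (T.smp (colF ω) B s l k).r) ∈
          {v | ∃ g ∈ S, T.lf (T.act g (T.smp (colF ω) B s l k).r) = v} ∧
          T.lf (T.act g (T.smp (colF ω) B s l k).r) ∉ T.vP (T.smp (colF ω) B s l k)) := by
      rw [mem_J]
      rfl
    by_cases h : T.lf (T.act g ((T.nx (colF ω))^[k] s)) ∈ J T S s k ω
    · rw [if_pos h, if_pos (hmem.1 h)]
      rfl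
    · rw [if_neg h, if_neg (fun h' => h (hmem.2 h'))]
      rfl

end flip

theorem flipfin (hC : CodeStmt) (hE : ExpmStmt) : FlipFinStmt := by
  classical
  intro Δ S Q
  obtain ⟨r, hr⟩ := exists_radius' S
  set Q' : Finset Gam := Q ∪ S with hQ'
  set N0 : ℕ := Q'.card * Q'.card * Δ with hN0
  refine ⟨3 * (N0 + 1), r, ?_⟩
  intro D V T θ hdeg s l Λ A B δ f hR hΛ hA hAne hloop hδ hbig hloc hf
  -- the class of a dart
  set F : Finset D := (ball_finite T s (3 * l)).toFinset with hF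
  set conf : D → D → Prop := fun d e => ∃ g ∈ Q', ∃ h ∈ Q', T.lf (T.act g d) = T.lf (T.act h e)
    with hconf
  have hsym : ∀ d e, conf d e → conf e d := by
    rintro d e ⟨g, hg, h, hh, e1⟩
    exact ⟨h, hh, g, hg, e1.symm⟩
  obtain ⟨κ, hκ⟩ := greedy F conf hsym N0 (by
    intro d _ G _ hG
    have hsub : G ⊆ (Q' ×ˢ Q').biUnion
        (fun p => (T.star (T.lf (T.act p.1 d))).image (fun x => (T.act p.2).symm x)) := by
      intro e he
      obtain ⟨g, hg, h, hh, e1⟩ := hG e he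
      rw [Finset.mem_biUnion]
      refine ⟨(g, h), Finset.mem_product.2 ⟨hg, hh⟩, ?_⟩
      rw [Finset.mem_image]
      exact ⟨T.act h e, (T.mem_star _ _).2 e1.symm, (T.act h).symm_apply_apply e⟩
    have h1 := Finset.card_le_card hsub
    have h2 := Finset.card_biUnion_le_card_mul (Q' ×ˢ Q')
      (fun p => (T.star (T.lf (T.act p.1 d))).image (fun x => (T.act p.2).symm x)) Δ
      (fun p _ => Finset.card_image_le.trans (hdeg _))
    rw [Finset.card_product] at h2
    exact h1.trans h2)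
  -- the probability space
  let Ω : Type := {ω : Finset V // ω ∈ Λ.powerset}
  let pth : ℕ → Ω → D := fun k ω => (T.nx (colF ω.1))^[k] s
  have hfl : ∀ k < l, ∀ ω : Ω, fl T S s k ω.1 ∈ Λ.powerset := by
    intro k hk ω
    rw [Finset.mem_powerset]
    intro v hv
    unfold fl at hv
    rw [Finset.mem_symmDiff] at hv
    rcases hv with ⟨h, -⟩ | ⟨h, -⟩
    · exact Finset.mem_powerset.1 ω.2 h
    · obtain ⟨⟨g, hg, rfl⟩, -⟩ := (mem_J T S s).1 h
      refine hΛ _ ?_
      refine ball_mono T s ?_ (ball_trans T (ball_iterate T (colF ω.1) s k) (hr g hg D V T _))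
      omega
  let cond : Fin (N0 + 1) → ℕ → Ω → Prop := fun c k ω =>
    (∀ j < k, pth j ω ≠ pth k ω) ∧ κ (pth k ω) = c
  let φ : Fin (N0 + 1) → ℕ → Ω → Ω := fun c k ω =>
    if h : k < l ∧ cond c k ω then ⟨fl T S s k ω.1, hfl k h.1 ω⟩ else ω
  let Z : ℕ → Ω → Cod := fun k ω => T.enc θ (T.smp (colF ω.1) (B ω.1) s l k)
  let X : Fin (N0 + 1) → ℕ → Ω → ℝ := fun c k ω =>
    if cond c k ω then (f (FlP Δ S (Z k ω)) - f (Z k ω)) / 2 else 0
  have hpth : ∀ c k ω, ∀ j ≤ k, pth j (φ c k ω) = pth j ω := by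
    intro c k ω j hj
    simp only [φ, pth]
    split_ifs with h
    · exact fl_path T S s k ω.1 j hj
    · rfl
  have hcond : ∀ c k ω, ∀ j ≤ k, (cond c j (φ c k ω) ↔ cond c j ω) := by
    intro c k ω j hj
    simp only [cond]
    rw [hpth c k ω j hj]
    constructor
    · rintro ⟨h1, h2⟩
      refine ⟨fun i hi => ?_, h2⟩
      have := h1 i hi
      rwa [hpth c k ω i (hi.le.trans hj)] at this
    · rintro ⟨h1, h2⟩
      refine ⟨fun i hi => ?_, h2⟩
      rw [hpth c k ω i (hi.le.trans hj)]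
      exact h1 i hi
  have hφ : ∀ c k (h : k < l) ω, cond c k ω → (φ c k ω).1 = fl T S s k ω.1 := by
    intro c k hk ω h
    simp only [φ]
    rw [dif_pos ⟨hk, h⟩]
  have hφ' : ∀ c k ω, ¬ cond c k ω → φ c k ω = ω := by
    intro c k ω h
    simp only [φ]
    rw [dif_neg (fun h' => h h'.2)]
  have p1 : ∀ c, ∀ k < l, ∀ ω, φ c k (φ c k ω) = ω := by
    intro c k hk ω
    by_cases h : cond c k ω
    · have h' := (hcond c k ω k le_rfl).2 h
      apply Subtype.ext
      rw [hφ c k hk _ h', hφ c k hk _ h]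
      exact fl_fl T S s k ω.1
    · rw [hφ' c k ω h, hφ' c k ω h]
  have hcode : ∀ c, ∀ k < l, ∀ ω, cond c k ω → ∀ R : Finset Gam,
      Agr R (Z k (φ c k ω)) (FlP Δ S (Z k ω)) := by
    intro c k hk ω h R
    simp only [Z]
    rw [hφ c k hk ω h]
    exact agr_fl T θ S s hC hdeg R k l ω.1 _ _
  have p2 : ∀ c, ∀ k < l, ∀ ω, X c k (φ c k ω) = - X c k ω := by
    intro c k hk ω
    by_cases h : cond c k ω
    · have h' := (hcond c k ω k le_rfl).2 h
      have a1 : f (Z k (φ c k ω)) = f (FlP Δ S (Z k ω)) := (hcode c k hk ω h Q).loc hloc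
      have a2 : f (Z k (φ c k (φ c k ω))) = f (FlP Δ S (Z k (φ c k ω))) :=
        (hcode c k hk _ h' Q).loc hloc
      rw [p1 c k hk ω] at a2
      simp only [X]
      rw [if_pos h, if_pos h', a1, ← a2]
      ring
    · rw [hφ' c k ω h]
      simp only [X]
      rw [if_neg h, neg_zero]
  have hmemF : ∀ k ≤ l, ∀ ω, pth k ω ∈ F := by
    intro k hk ω
    rw [hF, Set.Finite.mem_toFinset]
    exact ball_mono T s (by omega) (ball_iterate T (colF ω.1) s k)
  have p3 : ∀ c, ∀ k < l, ∀ j < k, ∀ ω, X c j (φ c k ω) = X c j ω := by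
    intro c k hk j hj ω
    by_cases hck : cond c k ω
    · have hcj := hcond c k ω j hj.le
      by_cases h : cond c j ω
      · have h' := hcj.2 h
        have hagr : Agr Q (Z j (φ c k ω)) (Z j ω) := by
          refine agr_smp T θ s ?_ ?_
          · intro i hi
            exact hpth c k ω i (hi.trans hj.le)
          · intro g hg
            rw [hφ c k hk ω hck]
            unfold fl
            rw [colF_symmDiff, if_neg]
            intro hJ
            obtain ⟨⟨g', hg', e1⟩, -⟩ := (mem_J T S s).1 hJ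
            have hne : pth j ω ≠ pth k ω := hck.1 j hj
            refine hκ _ (hmemF j (by omega) ω) _ (hmemF k hk.le ω) hne
              ⟨g, Finset.mem_union_left _ hg, g', Finset.mem_union_right _ hg', e1.symm⟩ ?_
            rw [h.2, hck.2]
        simp only [X]
        rw [if_pos h, if_pos h', hagr.loc hloc, (hagr.flp Δ S).loc hloc]
      · have h' : ¬ cond c j (φ c k ω) := fun h' => h (hcj.1 h')
        simp only [X]
        rw [if_neg h, if_neg h']
    · rw [hφ' c k ω hck]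
  have p4 : ∀ c, ∀ k < l, ∀ ω, |X c k ω| ≤ 1 := by
    intro c k _ ω
    simp only [X]
    split_ifs
    · have b1 := abs_le.1 (hf (FlP Δ S (Z k ω)))
      have b2 := abs_le.1 (hf (Z k ω))
      rw [abs_le]
      constructor <;> linarith [b1.1, b1.2, b2.1, b2.2]
    · simp
  -- the set `A`
  let A' : Finset Ω := A.subtype (fun ω => ω ∈ Λ.powerset)
  have hA'card : A'.card = A.card := by
    rw [Finset.card_subtype, Finset.filter_true_of_mem]
    exact fun ω hω => hA hω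
  have hA'ne : A'.Nonempty := by
    rw [← Finset.card_pos, hA'card]; exact hAne.card_pos
  have hΩ : Fintype.card Ω = 2 ^ Λ.card := by
    rw [Fintype.card_coe, Finset.card_powerset]
  have hbig' : Real.exp (-(δ ^ 2 * l)) * Fintype.card Ω ≤ A'.card := by
    rw [hΩ, hA'card]
    push_cast
    exact hbig
  have hsumA : ∀ G : Finset V → ℝ, ∑ ω ∈ A, G ω = ∑ ω ∈ A', G ω.1 := by
    intro G
    rw [Finset.sum_subtype_of_mem (p := fun ω => ω ∈ Λ.powerset) G (fun ω hω => hA hω)]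
  have key : ∀ c, |∑ ω ∈ A', ∑ k ∈ Finset.range l, X c k ω| ≤ A'.card * (3 / 2 * δ * l) :=
    fun c => class_bound hE A' hA'ne l (X c) (φ c) (p1 c) (p2 c) (p3 c) (p4 c) hδ hbig'
  -- all the darts are new
  have hnew : ∀ ω ∈ A', ∀ k < l, ∑ c, X c k ω = (f (FlP Δ S (Z k ω)) - f (Z k ω)) / 2 := by
    intro ω hω k hk
    have hωA : ω.1 ∈ A := Finset.mem_subtype.1 hω
    obtain ⟨H, hH⟩ := hloop ω.1 hωA
    have hn : ∀ j < k, pth j ω ≠ pth k ω := fun j hj => hH.2.2.2.1 j k hj hk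
    rw [Finset.sum_eq_single (κ (pth k ω))]
    · simp only [X]
      rw [if_pos ⟨hn, rfl⟩]
    · intro c _ hc
      simp only [X]
      rw [if_neg]
      exact fun h => hc h.2.symm
    · intro h
      exact absurd (Finset.mem_univ _) h
  rw [hsumA]
  have e1 : ∑ ω ∈ A', ∑ k ∈ Finset.range (l + 1),
      (f (FlP Δ S (T.enc θ (T.smp (colF ω.1) (B ω.1) s l k)))
        - f (T.enc θ (T.smp (colF ω.1) (B ω.1) s l k)))
      = 2 * ∑ c, ∑ ω ∈ A', ∑ k ∈ Finset.range l, X c k ω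
        + ∑ ω ∈ A', (f (FlP Δ S (Z l ω)) - f (Z l ω)) := by
    have e2 : ∑ c, ∑ ω ∈ A', ∑ k ∈ Finset.range l, X c k ω
        = ∑ ω ∈ A', ∑ k ∈ Finset.range l, (f (FlP Δ S (Z k ω)) - f (Z k ω)) / 2 := by
      rw [Finset.sum_comm]
      refine Finset.sum_congr rfl fun ω hω => ?_
      rw [Finset.sum_comm]
      refine Finset.sum_congr rfl fun k hk => ?_
      exact hnew ω hω k (Finset.mem_range.1 hk)
    rw [e2, Finset.mul_sum, ← Finset.sum_add_distrib]
    refine Finset.sum_congr rfl fun ω _ => ?_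
    rw [Finset.sum_range_succ, Finset.mul_sum]
    congr 1
    refine Finset.sum_congr rfl fun k _ => ?_
    simp only [Z]
    ring
  rw [e1]
  have e3 : |∑ c, ∑ ω ∈ A', ∑ k ∈ Finset.range l, X c k ω|
      ≤ (N0 + 1) * (A'.card * (3 / 2 * δ * l)) := by
    calc _ ≤ ∑ c, |∑ ω ∈ A', ∑ k ∈ Finset.range l, X c k ω| := Finset.abs_sum_le_sum_abs _ _
      _ ≤ ∑ _c : Fin (N0 + 1), (A'.card * (3 / 2 * δ * l) : ℝ) :=
          Finset.sum_le_sum fun c _ => key c
      _ = _ := by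
          rw [Finset.sum_const, Finset.card_univ, Fintype.card_fin, nsmul_eq_mul]
          push_cast
          ring
  have e4 : |∑ ω ∈ A', (f (FlP Δ S (Z l ω)) - f (Z l ω))| ≤ A'.card * 2 := by
    calc _ ≤ ∑ ω ∈ A', |f (FlP Δ S (Z l ω)) - f (Z l ω)| := Finset.abs_sum_le_sum_abs _ _
      _ ≤ ∑ _ω ∈ A', (2 : ℝ) := by
          refine Finset.sum_le_sum fun ω _ => ?_
          have b1 := abs_le.1 (hf (FlP Δ S (Z l ω)))
          have b2 := abs_le.1 (hf (Z l ω))
          rw [abs_le]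
          constructor <;> linarith [b1.1, b1.2, b2.1, b2.2]
      _ = _ := by rw [Finset.sum_const, nsmul_eq_mul]
  rw [hA'card] at e3 e4
  calc _ ≤ |2 * ∑ c, ∑ ω ∈ A', ∑ k ∈ Finset.range l, X c k ω|
        + |∑ ω ∈ A', (f (FlP Δ S (Z l ω)) - f (Z l ω))| := abs_add_le _ _
    _ ≤ 2 * ((N0 + 1) * (A.card * (3 / 2 * δ * l))) + A.card * 2 := by
        rw [abs_mul, abs_two]
        exact add_le_add (mul_le_mul_of_nonneg_left e3 (by norm_num)) e4
    _ ≤ A.card * ((3 * (N0 + 1) : ℕ) * δ * (l + 1) + 2) := by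
        push_cast
        have h0 : (0 : ℝ) ≤ A.card * (3 * (N0 + 1) * δ) := by positivity
        nlinarith

end Pool.Agent.BS.H72
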